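import Mathlib
import Pool.Agent.V8H39.DO.Sim
import Pool.Agent.V8H39.ST.Sat

/-!
# Cook reductions with recursion and few reads to sparse sets

For every `k` there is `D` such that 3-SAT is not reducible to any set with fewer than
`2 ^ (n / D)` strings (up to polynomial factors) by deterministic or one-sided randomised oracle
machines with fewer than `n / D` bits of work memory and a stack of unlimited height (on which the
contents of the query tape may be saved as well) which read `n` of the sign bits of the instance at
most `k * n` times. The number of steps is not limited, only the reads which are really made on the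
inputs count, and the bound holds on average over the instances.
-/

set_option autoImplicit false

namespace Pool.Agent.Results.MP_69a69c_lc.FewReadsRecursion

open Pool.Agent.H554R2.Sem Pool.Agent.H554R2.Cnf
open Pool.Agent.V8H39.SO (upTo)
open Pool.Agent.V8H39.DO

/-- The instance of 3-SAT which is obtained from `b` if the sign of the first literal of the clause
`a i` is changed to `x i`, for all `i`. -/
noncomputable abbrev inst {n M ℓ : ℕ} (a : Fin n ↪ Fin M) (b : Idx M ℓ → Bool) (x : Pt n) :
    Idx M ℓ → Bool :=
  plug (fun i => sgn ℓ (a i)) b x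

/-- The number of times the signs of the first literals of the clauses `a i` are read, if `L` is
the list of the bits which are read. -/
def signs {n M ℓ : ℕ} (a : Fin n ↪ Fin M) (L : List (Idx M ℓ)) : ℕ :=
  ∑ i, L.count (sgn ℓ (a i))

theorem result : ∀ k : ℕ, ∃ D : ℕ, 0 < D ∧ ∀ (n M ℓ : ℕ) (a : Fin n ↪ Fin M),
    D * n ≤ M → D * n ≤ 2 ^ ℓ → ∃ b : Idx M ℓ → Bool,
    ∀ (O : Set (List Bool)) (m : ℕ) (R : Type) [Fintype R] [Nonempty R]
      (U : R → DMach (Idx M ℓ)),
      (∀ (r : R) (x : Pt n) (L : List (Idx M ℓ)), (U r).Comp O m (inst a b x) L true →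
        Sat3 (inst a b x)) →
      Nat.card R * Nat.card {x : Pt n // Sat3 (inst a b x)} ≤ 2 ^ (n / D) *
        Nat.card {u : R × Pt n // ∃ L, (U u.1).Comp O m (inst a b u.2) L true ∧
          signs a L ≤ k * n} →
      ∃ r, 2 ^ (n / D) ≤ Fintype.card (U r).State * ((upTo O m).ncard * m + 2) := by
  intro k
  obtain ⟨D, hD, h⟩ := Pool.Agent.V8H39.ST.finalS k
  refine ⟨D, hD, fun n M ℓ a hM hℓ => ?_⟩
  obtain ⟨b, -, hb⟩ := h n M ℓ a hM hℓ
  refine ⟨b, fun O m R _ _ U hU hl => ?_⟩
  obtain ⟨r, hr⟩ := hb R (fun r => toMach (U r) O m)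
    (fun r x L hL => hU r x L ((comp_iff (U r) O m _ L true).1 hL))
    (by
      simp only [comp_iff]
      exact hl)
  exact ⟨r, hr.trans (card_toMach (U r) O m)⟩

end Pool.Agent.Results.MP_69a69c_lc.FewReadsRecursion
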