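import Pool.Agent.V8H41.SP.Diag

set_option autoImplicit false

/-!
# No sparse set is complete for NP under Cook reductions which run in a fixed polynomial time

For every sparse set `S` in `NP` and every `k` there is a language in `NP` (even a sparse one) which
is not decided in time `O (n ^ k)` with oracle `S`. The complement of this language is not even
accepted in time `O (n ^ k)` by a nondeterministic machine with oracle `S`; and for some language in
`NP` the complement is not accepted in time `O (n ^ k)` by a nondeterministic machine with oracle
`S` and with `n / 4` bits of advice.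

So if there is a sparse language which is complete for `NP` under Cook reductions, then the running
times of the reductions are not bounded by a fixed polynomial. (If `P = NP` then such reductions
exist, so nothing like this is known without a bound for the running time.)

Polynomial time is Mathlib's `Turing.TM2ComputableInPolyTime`; `NP` (`InNP`) and the coding of pairs
of strings (`pairBits`) are defined in `Pool/Agent/NPC/Defs.lean`.
-/

namespace Pool.Agent.Results.MP_69a69c_lc.FixedPolynomialTime

open Turing
open Pool.Agent.NPC (pairBits InNP PolyTime)

/-- The function `D` on bit strings is computed by a Turing machine (a multi-stack machine of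
Mathlib) in at most `c (m + 1) ^ k` steps on strings of length `m`. -/
def InTime (k c : ℕ) (D : List Bool → List Bool) : Prop :=
  ∃ M : TM2ComputableInTime (id : List Bool → List Bool) (id : List Bool → List Bool) D,
    ∀ m, M.time m ≤ c * (m + 1) ^ k

open Classical in
/-- An oracle computation is given by its next-action function `D`: on input `x`, and after the
answers `a` to the questions asked so far, `D ⟨x, a⟩` tells what comes next. The value `false :: q`
means that the next question is whether `q` is in the oracle `S`, the value `true :: z` means that
the computation stops with output `z`, and the empty string means that it stops with the empty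
output. `run D S x n a` is the output within `n` further rounds, and `none` if there is none. -/
noncomputable def run (D : List Bool → List Bool) (S : Set (List Bool)) (x : List Bool) :
    ℕ → List Bool → Option (List Bool)
  | 0, _ => none
  | n + 1, a =>
    match D (pairBits x a) with
    | [] => some []
    | true :: z => some z
    | false :: q => run D S x n (a ++ [decide (q ∈ S)])

open Classical in
/-- A Cook reduction of `A` to `S` in time `O (n ^ k)`: `A` is decided by an oracle computation with
oracle `S`, whose next-action function is computed in time `c (m + 1) ^ k`, within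
`c (n + 1) ^ k` rounds on inputs of length `n`. Every oracle Turing machine which runs in time
`O (n ^ k)`, `k ≥ 1`, gives such a computation. -/
def CookInTime (k : ℕ) (A S : Set (List Bool)) : Prop :=
  ∃ (D : List Bool → List Bool) (c : ℕ), InTime k c D ∧
    ∀ x, run D S x (c * (x.length + 1) ^ k) [] = some [decide (x ∈ A)]

/-- `A` is accepted in time `O (n ^ k)` by a nondeterministic machine with oracle `S` and with
advice of length at most `α n` on inputs of length `n`: `x` is in `A` if and only if for some guess
`w` of length at most `c (n + 1) ^ k` the oracle computation on input `⟨⟨x, advice⟩, w⟩` has the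
output `1`. -/
def NondetInTime (k : ℕ) (α : ℕ → ℕ) (A S : Set (List Bool)) : Prop :=
  ∃ (D : List Bool → List Bool) (c : ℕ) (adv : ℕ → List Bool), InTime k c D ∧
    (∀ n, (adv n).length ≤ α n) ∧
    ∀ x, x ∈ A ↔ ∃ w : List Bool, w.length ≤ c * (x.length + 1) ^ k ∧
      run D S (pairBits (pairBits x (adv x.length)) w) (c * (x.length + 1) ^ k) [] = some [true]

/-- The number of strings of length at most `n` in `S` is bounded by a polynomial in `n`. -/
def Sparse (S : Set (List Bool)) : Prop :=
  ∃ p : Polynomial ℕ, ∀ n, {x | x ∈ S ∧ x.length ≤ n}.ncard ≤ p.eval n

theorem run_eq (D : List Bool → List Bool) (S : Set (List Bool)) (x : List Bool) :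
    ∀ (n : ℕ) (a : List Bool), run D S x n a = Pool.Agent.V8H41.SP.run D S x n a := by
  intro n
  induction n with
  | zero => intro a; rfl
  | succ n ih =>
    intro a
    unfold run Pool.Agent.V8H41.SP.run
    rcases D (pairBits x a) with _ | ⟨b, z⟩
    · rfl
    · cases b with
      | true => rfl
      | false => exact ih _

/-- **No sparse set in `NP` is complete for `NP` under Cook reductions of a fixed polynomial
running time.** -/
theorem result : ∀ S : Set (List Bool), InNP S → Sparse S → ∀ k : ℕ,
    (∃ A : Set (List Bool), InNP A ∧ Sparse A ∧ ¬ CookInTime k A S ∧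
      ¬ NondetInTime k (fun _ => 0) Aᶜ S) ∧
    ∃ A : Set (List Bool), InNP A ∧ ¬ CookInTime k A S ∧
      ¬ NondetInTime k (fun n => n / 4) Aᶜ S := by
  classical
  intro S hS hsp k
  obtain ⟨V, pS, hV, hS⟩ := hS
  obtain ⟨pC, hC⟩ := hsp
  have hVP := Pool.Agent.V8H41.SP.pf_of_polyTime hV
  have cook : ∀ β, ¬ CookInTime k (Pool.Agent.V8H41.SP.AL k (Pool.Agent.V8H41.SP.KK k) V pS pC β)
      S := by
    rintro β ⟨D, c, hD, h⟩
    refine Pool.Agent.V8H41.SP.diag k hS hC β false (adv := fun _ => []) hD (by simp)
      (Or.inr fun _ => rfl) fun x => ?_
    have h1 := h x
    rw [run_eq] at h1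
    have h2 : ∀ w, Pool.Agent.V8H41.SP.inp false x [] w = x := fun _ => rfl
    constructor
    · intro hx
      refine ⟨[], Nat.zero_le _, ?_⟩
      rw [h2, h1, decide_eq_false hx]
    · rintro ⟨w, -, hw⟩ hx
      rw [h2, h1, decide_eq_true hx] at hw
      simp at hw
  refine ⟨⟨Pool.Agent.V8H41.SP.AL k (Pool.Agent.V8H41.SP.KK k) V pS pC false,
    Pool.Agent.V8H41.SP.AL_inNP k _ hVP pS pC false,
    Pool.Agent.V8H41.SP.AL_sparse k _ V pS pC, cook false, ?_⟩,
    Pool.Agent.V8H41.SP.AL k (Pool.Agent.V8H41.SP.KK k) V pS pC true,
    Pool.Agent.V8H41.SP.AL_inNP k _ hVP pS pC true, cook true, ?_⟩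
  · rintro ⟨D, c, adv, hD, hadv, h⟩
    have hadv' : ∀ n, adv n = [] := fun n => List.length_eq_zero_iff.1 (Nat.le_zero.1 (hadv n))
    refine Pool.Agent.V8H41.SP.diag k hS hC false true (adv := adv) hD (by simp [hadv'])
      (Or.inr hadv') fun x => ?_
    have h1 := h x
    simp only [run_eq] at h1
    exact h1
  · rintro ⟨D, c, adv, hD, hadv, h⟩
    refine Pool.Agent.V8H41.SP.diag k hS hC true true (adv := adv) hD (fun n => ?_)
      (Or.inl rfl) fun x => ?_
    · have h2 : (adv n).length ≤ n / 4 := hadv n
      omega
    · have h1 := h x
      simp only [run_eq] at h1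
      exact h1

end Pool.Agent.Results.MP_69a69c_lc.FixedPolynomialTime
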