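import Pool.Agent.V8H39.MQ.Lower
import Pool.Agent.V8H39.MQ.Upper

/-!
# Reductions to sparse sets by circuits with few NOT gates

For reductions of the half-clique language to a set `S`, computed by circuits with AND and OR gates
(and NOT gates) which ask questions about `S`, the number of strings in `S` matters. If the
product over all layers of `1 +` (number of NOT gates and of strings of `S` that may be asked) is
smaller than `n / polylog n`, then such a reduction of quasi-polynomial size is wrong on almost half
of the inputs. There is a fixed set with `n + 1` strings of length `2 n + 1` to which every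
function with small circuits has a small reduction with one question and without NOT gates.
-/

set_option autoImplicit false

namespace Pool.Agent.Results.MP_69a69c_lc.MonotoneQueries

open Pool.Agent.V8H39.MQ

theorem result :
    (∀ n μ : ℕ, 1 ≤ n → Nat.log 2 n < μ →
      ∃ D : (Fin n → Bool) → ℝ, (∀ x, 0 ≤ D x) ∧ ∑ x, D x = 1 ∧
        ∀ (S : Set (List Bool)) (C : Circ n) (lev : ℕ → ℕ), C.Layered lev → C.size ≤ 2 ^ μ →
          agree D S C (fun x => List.ofFn x ∈ Pool.Agent.V8H38.NL.HalfClique) ≤
            1 / 2 + 2 ^ 50 * C.total S lev * μ ^ 10 / n) ∧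
    (∀ n : ℕ, {w | w ∈ Thr ∧ w.length = 2 * n + 1}.ncard = n + 1) ∧
    ∀ (n : ℕ) (C : Circ n), C.Plain → ∀ S : Set (List Bool),
      ∃ C' : Circ n, C'.OneAsk (2 * n + 1) ∧
        C'.size ≤ 2 * (n + 1) * ((n + 1) ^ 2 + C.size + 1) ∧
        ∀ x, C'.eval Thr x = C.eval S x :=
  ⟨fun n μ hn hμ => lower n μ hn hμ, thr_card, fun _ C hC S => upper C hC S⟩

end Pool.Agent.Results.MP_69a69c_lc.MonotoneQueries
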