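import Mathlib
import Pool.Agent.W896.RK.Sat
import Pool.Agent.V8H39.RM.Gates

/-!
# Nondeterministic reductions with recursive procedures to sparse sets need many reads

Nondeterministic oracle machines with a stack of unlimited height, on which the contents of the
query tape may be saved as well, decide neither 3-SAT nor its complement with a sparse oracle
(even with `2 ^ (ε M)` strings) and `ε M` bits of work memory, if on each path to acceptance the
sign bits are read at most `k` times on average.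
-/

set_option autoImplicit false

namespace Pool.Agent.Results.MP_69a69c_lc.RecursiveReductions

open Pool.Agent.W896.RK Pool.Agent.H554R2.Cnf
open Pool.Agent.V8H39.SO Pool.Agent.V8H39.RM

theorem result (k M ℓ m : ℕ) (hℓ : M ≤ 2 ^ ℓ) (Q : (Idx M ℓ → Bool) → Prop)
    (hQ : Q = Sat3 ∨ Q = fun x => ¬ Sat3 x) (O : Set (List Bool)) (P : RMach (Idx M ℓ))
    (hP : ∀ x, P.Accepts O m x ↔ Q x) (κ : Fin M → ℕ) (hκ : ∑ j, κ j ≤ k * M)
    (hr : ∀ L, P.Path O m L → ∀ j, L.count (sgn ℓ j) ≤ κ j) :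
    M ≤ 2 ^ (56 * (k + 1)) *
      (Nat.log 2 (Fintype.card P.State * ((upTo O m).ncard * m + 2)) + 1) := by
  rcases Nat.eq_zero_or_pos M with h0 | h0
  · exact h0.le.trans (Nat.zero_le _)
  obtain ⟨v₀, hv₀⟩ : ∃ v₀ : Idx M ℓ, v₀ = (⟨0, h0⟩, 1, none) := ⟨_, rfl⟩
  obtain ⟨p, hp⟩ : ∃ p : Fin M → Idx M ℓ, p = fun j => sgn ℓ j := ⟨_, rfl⟩
  have hpv : ∀ j, p j ≠ v₀ := by
    intro j h
    rw [hp, hv₀] at h
    have h1 := congrArg (fun v : Idx M ℓ => v.2.1) h
    simp [sgn] at h1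
  have hU : ∀ x, (unr (sys P O m v₀) p).Val x (unr (sys P O m v₀) p).out ↔ Q x := by
    intro x
    rw [unr_out, ← hP]
    constructor
    · rintro ⟨c, hc⟩
      obtain ⟨L, h, -⟩ := (out_iff hpv ⟨x v₀, rfl⟩ c).1 hc
      exact ⟨L, h⟩
    · rintro ⟨L, h⟩
      exact ⟨Pool.Agent.V8H39.RM.cnt p L, (out_iff hpv ⟨x v₀, rfl⟩ _).2 ⟨L, h, rfl⟩⟩
  have hd := unr_deg (sys P O m v₀) p
  have hle : ∀ j, dg (sys P O m v₀) p (Fintype.card (sys P O m v₀).G) (sys P O m v₀).out j ≤
      κ j := by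
    intro j
    refine unr_le (κ := κ) (fun c hc j => ?_) j
    obtain ⟨L, h, rfl⟩ := (out_iff hpv ⟨true, trivial⟩ c).1 hc
    have := hr L h j
    rw [hp]
    unfold Pool.Agent.V8H39.RM.cnt
    convert this
  have key := final k M ℓ hℓ Q hQ (unr (sys P O m v₀) p) hU
    (fun g j => dg (sys P O m v₀) p g.2.val g.1 j) (by rw [hp] at hd ⊢; exact hd)
    ((Finset.sum_le_sum fun j _ => hle j).trans hκ)
  refine key.trans ?_
  obtain ⟨n, hn⟩ : ∃ n, n = Fintype.card P.State * ((upTo O m).ncard * m + 2) := ⟨_, rfl⟩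
  rw [← hn]
  have hS : Fintype.card (St P O m) ≤ n := by
    have h : Fintype.card (St P O m) = Fintype.card (P.State × Option (pre O m)) := rfl
    rw [h, hn, Fintype.card_prod, Fintype.card_option, Fintype.card_coe]
    exact Nat.mul_le_mul_left _ (Nat.add_le_add_right (card_pre O m) 1)
  have : Nonempty (St P O m) := ⟨(P.start, none)⟩
  have hN : Fintype.card (sys P O m v₀).G ≤ 11 * n ^ 3 := by
    have h : Fintype.card (sys P O m v₀).G = Fintype.card (It (St P O m)) := rfl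
    rw [h]
    exact (card_It (St P O m)).trans (Nat.mul_le_mul_left _ (Nat.pow_le_pow_left hS 3))
  have hn1 : 1 ≤ n := le_trans Fintype.card_pos hS
  have hG : Fintype.card (unr (sys P O m v₀) p).G ≤ 2 ^ 8 * n ^ 6 := by
    rw [card_unr]
    obtain ⟨N, hN'⟩ : ∃ N, N = Fintype.card (sys P O m v₀).G := ⟨_, rfl⟩
    rw [← hN'] at hN ⊢
    have h1 : 1 ≤ n ^ 3 := Nat.one_le_pow _ _ hn1
    calc N * (N + 1) ≤ (11 * n ^ 3) * (11 * n ^ 3 + n ^ 3) := by gcongr
      _ = 132 * n ^ 6 := by ring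
      _ ≤ _ := Nat.mul_le_mul_right _ (by norm_num)
  have hlog : Nat.log 2 (Fintype.card (unr (sys P O m v₀) p).G) + 1 ≤
      2 ^ 4 * (Nat.log 2 n + 1) := by
    have h1 : n < 2 ^ (Nat.log 2 n + 1) := Nat.lt_pow_succ_log_self (by norm_num) _
    have h2 : Fintype.card (unr (sys P O m v₀) p).G < 2 ^ (8 + 6 * (Nat.log 2 n + 1)) := by
      refine lt_of_le_of_lt hG ?_
      rw [pow_add, mul_comm 6, pow_mul]
      exact Nat.mul_lt_mul_of_pos_left (Nat.pow_lt_pow_left h1 (by norm_num)) (by norm_num)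
    have h3 : Nat.log 2 (Fintype.card (unr (sys P O m v₀) p).G) < 8 + 6 * (Nat.log 2 n + 1) :=
      Nat.log_lt_of_lt_pow (by
        intro h
        have h4 : 0 < Fintype.card (unr (sys P O m v₀) p).G :=
          Fintype.card_pos_iff.2 ⟨(unr (sys P O m v₀) p).out⟩
        omega) h2
    omega
  calc 2 ^ (52 * (k + 1)) * (Nat.log 2 (Fintype.card (unr (sys P O m v₀) p).G) + 1)
      ≤ 2 ^ (52 * (k + 1)) * (2 ^ 4 * (Nat.log 2 n + 1)) := Nat.mul_le_mul_left _ hlog
    _ = 2 ^ (52 * (k + 1) + 4) * (Nat.log 2 n + 1) := by rw [pow_add, mul_assoc]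
    _ ≤ 2 ^ (56 * (k + 1)) * (Nat.log 2 n + 1) :=
        Nat.mul_le_mul_right _ (Nat.pow_le_pow_right (by norm_num) (by omega))

end Pool.Agent.Results.MP_69a69c_lc.RecursiveReductions
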